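import Pool.Agent.Q233.SV.P

/-!
# MP_33d18a_mp: the Siemieniec-Oziebło metric versus the first Vaidya–Shah class

The Siemieniec-Oziebło metric with constants `(a, b)` is a subcase of (locally isometric to a member of) the
first Vaidya–Shah class if and only if it is one of the two Friedmann metrics: `a > 0` and (`b = 0` or
`b = -a`).  In particular Q1 is false.

The definitions are in `Pool.Agent.Q233.SV.Defs`:
* `soMetric a b`, `soRegion a b`: the metric `(a t² + b r²)(dt² - dr² - r² dΩ²)` in the coordinates
  `(t,r,ϑ,φ)` and the set of all points where `a t² + b r² > 0` and the metric is Lorentzian;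
* `VSData`: admissible data `ψ, P, F, m` of the first Vaidya–Shah class; `VSData.metric`,
  `VSData.region`: the metric and the set of all points where it is Lorentzian;
* `IsSubcase a b`: for some admissible data there is a diffeomorphism from a nonempty open subset of
  `soRegion a b` onto an open subset of the region of the first-class metric which pulls the first-class metric
  back to the Siemieniec-Oziebło metric.
-/

set_option autoImplicit false
open Pool.Agent.Q233.SV

namespace Pool.Agent.Results.MP_33d18a_mp.FriedmannOnly

/-- Classification: when the region `a t² + b r² > 0` is nonempty, the Siemieniec-Oziebło metric is a subcase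
of the first Vaidya–Shah class exactly if `a > 0` and `b = 0` or `b = -a`; in particular not for all `(a, b)`
with nonempty region. -/
theorem result :
    (∀ a b : ℝ, (∃ t r : ℝ, 0 < a * t ^ 2 + b * r ^ 2) →
      (IsSubcase a b ↔ 0 < a ∧ (b = 0 ∨ b = -a))) ∧
    ¬ (∀ a b : ℝ, (∃ t r : ℝ, 0 < a * t ^ 2 + b * r ^ 2) → IsSubcase a b) := by
  have key : ∀ a b : ℝ, (∃ t r : ℝ, 0 < a * t ^ 2 + b * r ^ 2) →
      (IsSubcase a b ↔ 0 < a ∧ (b = 0 ∨ b = -a)) := by
    rintro a b ⟨t, r, hreg⟩
    constructor
    · intro h
      have h1 : b = 0 ∨ b = -a := by
        by_contra hcon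
        rw [not_or] at hcon
        exact main hcon.1 (fun h0 => hcon.2 (by linarith)) h
      refine ⟨?_, h1⟩
      rcases h1 with h1 | h1
      · subst h1
        by_contra ha
        have : a * t ^ 2 ≤ 0 := mul_nonpos_of_nonpos_of_nonneg (not_lt.mp ha) (sq_nonneg t)
        linarith
      · subst h1
        rcases lt_trichotomy a 0 with ha | ha | ha
        · exact absurd h (main2 ha (by ring))
        · subst ha
          simp at hreg
        · exact ha
    · rintro ⟨ha, hb | hb⟩
      · subst hb
        exact pos1 ha
      · subst hb
        exact pos2 ha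
  refine ⟨key, fun h => ?_⟩
  have h1 := (key 1 1 ⟨1, 0, by norm_num⟩).mp (h 1 1 ⟨1, 0, by norm_num⟩)
  rcases h1.2 with h2 | h2 <;> norm_num at h2

end Pool.Agent.Results.MP_33d18a_mp.FriedmannOnly
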